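import Pool.Agent.V11252.SAW.Infl

/-!
# Inflated self-avoiding polygons

The uniform self-avoiding polygon with perimeter `2 n` is inflated by a pressure `p ≥ 0`, that is,
weighted by `exp (p A)`, `A` its area.

(1) Its normalised partition function `E_n[exp (p A)]` is given, up to the factor `4` in the pressure
and errors of order `p n + (log n)^2`, by a variational formula with the rate function `J` of the end
point of the self-avoiding walk: `sup_v (p (n v)^2 - 2 n J (v))`.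

(2) For pressures `p = n^(-a)`, `1 < a < 3/2`, between the scale `n^(-3/2)` of the conjectured area
`n^(3/2)` and the scale `n^(-1)` of full inflation:
the upper half of the area exponent `3/2` of the polygons without pressure (at stretched exponential
precision) is equivalent to `log E_n[exp (n^(-a) A)] ≤ n^(3 - 2 a + o(1))`, for one `a` or for all `a`,
and it implies `A_n (n^(-a)) ≤ n^(3 - a + o(1))` for the mean area under the pressure; the lower half
implies the corresponding lower bounds.  (The conjectured scaling form is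
`log E_n[exp (p A)] = (p n^(3/2))^2` up to constants.)

The proof uses the bounds of the area of the polygons by their width and the large deviations of the
width (the starting libraries `Pool.Agent.Y981.L2.Area5`, `Pool.Agent.Y981.L2.PolyE`), sums over all
areas, and convexity in the pressure.
-/

set_option autoImplicit false

namespace Pool.Agent.Results.MP_2250b1_co.InflatedPolygons

open Filter Topology
open Pool.Agent

/-- a closed nearest-neighbour loop on `ℤ²` with `m` steps, rooted at the origin and oriented,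
that visits no vertex twice -/
def IsLoop (m : ℕ) (f : ZMod m → ℤ × ℤ) : Prop :=
  f 0 = 0 ∧ Function.Injective f ∧
    ∀ i : ZMod m, |(f (i + 1)).1 - (f i).1| + |(f (i + 1)).2 - (f i).2| = 1

/-- the edge from `f k` to `f (k+1)` is horizontal, joins the columns `x = a` and `x = a + 1`, and
has height larger than `b`: it lies above the unit cell `[a, a+1] × [b, b+1]` -/
def Above (m : ℕ) (f : ZMod m → ℤ × ℤ) (a b : ℤ) (k : ZMod m) : Prop :=
  (((f k).1 = a ∧ (f (k + 1)).1 = a + 1) ∨ ((f k).1 = a + 1 ∧ (f (k + 1)).1 = a)) ∧ b < (f k).2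

/-- the unit cell `[a, a+1] × [b, b+1]` is enclosed by the loop: the vertical ray from the cell
upwards crosses an odd number of edges -/
def Encl (m : ℕ) (f : ZMod m → ℤ × ℤ) (c : ℤ × ℤ) : Prop :=
  Odd (Nat.card {k : ZMod m // Above m f c.1 c.2 k})

/-- the area: the number of unit cells enclosed by the loop -/
noncomputable def area (m : ℕ) (f : ZMod m → ℤ × ℤ) : ℕ := Nat.card {c : ℤ × ℤ // Encl m f c}

/-- the loops of length `2 n`; every polygon with perimeter `2 n` (up to translation) corresponds to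
exactly `4 n` of them, so that the uniform loop is the uniform polygon -/
def Lp (n : ℕ) : Set (ZMod (2 * n) → ℤ × ℤ) := {g | IsLoop (2 * n) g}

/-- the proportion of the self-avoiding polygons of perimeter `2 n` with area at least `r` -/
noncomputable def large (n : ℕ) (r : ℝ) : ℝ :=
  ({f : ZMod (2 * n) → ℤ × ℤ | IsLoop (2 * n) f ∧ r ≤ area (2 * n) f}.ncard : ℝ) /
    ({f : ZMod (2 * n) → ℤ × ℤ | IsLoop (2 * n) f}.ncard : ℝ)

/-- `E_n[exp (p A)]` for the uniform polygon with perimeter `2 n` and area `A` -/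
noncomputable def Z (n : ℕ) (p : ℝ) : ℝ :=
  (∑ᶠ g ∈ Lp n, Real.exp (p * area (2 * n) g)) / ((Lp n).ncard : ℝ)

/-- the mean area `E_n[A exp (p A)] / E_n[exp (p A)]` of the polygon under the pressure `p` -/
noncomputable def A (n : ℕ) (p : ℝ) : ℝ :=
  (∑ᶠ g ∈ Lp n, (area (2 * n) g : ℝ) * Real.exp (p * area (2 * n) g)) /
    ∑ᶠ g ∈ Lp n, Real.exp (p * area (2 * n) g)

/-- `ω` is an `n`-step self-avoiding walk on `ℤ²` started at the origin. -/
def IsSAW (n : ℕ) (ω : Fin (n + 1) → ℤ × ℤ) : Prop :=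
  ω 0 = (0, 0) ∧
  (∀ i : Fin n, |(ω i.succ).1 - (ω i.castSucc).1| + |(ω i.succ).2 - (ω i.castSucc).2| = 1) ∧
  Function.Injective ω

/-- `c_n`: the number of `n`-step self-avoiding walks from the origin -/
noncomputable def c (n : ℕ) : ℕ := Nat.card {ω : Fin (n + 1) → ℤ × ℤ // IsSAW n ω}

/-- `c_n(x)`: the number of `n`-step self-avoiding walks from the origin to `x` -/
noncomputable def cx (n : ℕ) (x : ℤ × ℤ) : ℕ :=
  Nat.card {ω : Fin (n + 1) → ℤ × ℤ // IsSAW n ω ∧ ω (Fin.last n) = x}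

theorem c_eq (n : ℕ) : c n = TH795.EP.c n := TH795.EP2.card_walks n

theorem cx_eq (n : ℕ) (x : ℤ × ℤ) : cx n x = TH795.EP.a n x.1 x.2 := TH795.EP2.card_walks_to n x

theorem large_eq (n : ℕ) (r : ℝ) : large n r = Y981.L2.par n r := rfl

theorem Z_eq (n : ℕ) (p : ℝ) : Z n p = V11252.SAW.Za n p := rfl

theorem A_eq (n : ℕ) (p : ℝ) : A n p = V11252.SAW.Aa n p := rfl

/-- **Main result.** There are `J : ℝ → ℝ` and `K` such that for all `n ≥ 2`:
`|log (c_{2n}((2k, 0)) / c_{2n}) + 2 n J(k/n)| ≤ K (log n)^2` for all `1 ≤ k ≤ n`, and for every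
pressure `p ≥ 0`
`p (n v)^2 / 4 - 2 n J(v) ≤ log E_n[exp (p A)] + p n + K (log n)^2` for all `v ∈ [0, 1]`, and
`log E_n[exp (p A)] ≤ p (n v)^2 - 2 n J(v) + 4 p n + K (log n)^2` for some `v ∈ [0, 1]`.
Moreover, for every `1 < a < 3/2`:
(a) `P_n[A ≥ n^(3/2 + ε)] ≤ exp (-n^δ)` for large `n`, for every `ε > 0` and some `δ = δ(ε) > 0`, if and
only if `log E_n[exp (n^(-a) A)] ≤ n^(3 - 2a + ε)` for large `n`, for every `ε > 0`, and then the mean
area under the pressure `n^(-a)` is at most `n^(3 - a + ε)` for large `n`, for every `ε > 0`;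
(b) if `P_n[A ≥ n^(3/2 - ε)] ≥ exp (-n^δ)` for large `n`, for all `ε, δ > 0`, then for every `ε > 0`
`log E_n[exp (n^(-a) A)] ≥ n^(3 - 2a - ε)` and the mean area under the pressure `n^(-a)` is at least
`n^(3 - a - ε)`, for large `n`. -/
theorem result :
    (∃ (J : ℝ → ℝ) (K : ℝ), ∀ n : ℕ, 2 ≤ n →
      (∀ k : ℕ, 1 ≤ k → k ≤ n →
        |Real.log ((cx (2 * n) (2 * k, 0) : ℝ) / c (2 * n)) + 2 * (n * J ((k : ℝ) / n))| ≤
          K * Real.log n ^ 2) ∧
      ∀ p : ℝ, 0 ≤ p →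
        (∀ v : ℝ, 0 ≤ v → v ≤ 1 →
          p * (n * v) ^ 2 / 4 - 2 * n * J v ≤ Real.log (Z n p) + (p * n + K * Real.log n ^ 2)) ∧
        ∃ v : ℝ, 0 ≤ v ∧ v ≤ 1 ∧
          Real.log (Z n p) ≤ p * (n * v) ^ 2 - 2 * n * J v + (4 * p * n + K * Real.log n ^ 2)) ∧
    ∀ a : ℝ, 1 < a → a < 3 / 2 →
      ((∀ ε : ℝ, 0 < ε → ∃ δ : ℝ, 0 < δ ∧ ∀ᶠ n : ℕ in atTop,
          large n ((n : ℝ) ^ (3 / 2 + ε)) ≤ Real.exp (-(n : ℝ) ^ δ)) ↔
        ∀ ε : ℝ, 0 < ε → ∀ᶠ n : ℕ in atTop,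
          Real.log (Z n ((n : ℝ) ^ (-a))) ≤ (n : ℝ) ^ (3 - 2 * a + ε)) ∧
      ((∀ ε : ℝ, 0 < ε → ∃ δ : ℝ, 0 < δ ∧ ∀ᶠ n : ℕ in atTop,
          large n ((n : ℝ) ^ (3 / 2 + ε)) ≤ Real.exp (-(n : ℝ) ^ δ)) →
        ∀ ε : ℝ, 0 < ε → ∀ᶠ n : ℕ in atTop, A n ((n : ℝ) ^ (-a)) ≤ (n : ℝ) ^ (3 - a + ε)) ∧
      ((∀ ε : ℝ, 0 < ε → ∀ δ : ℝ, 0 < δ → ∀ᶠ n : ℕ in atTop,
          Real.exp (-(n : ℝ) ^ δ) ≤ large n ((n : ℝ) ^ (3 / 2 - ε))) →
        ∀ ε : ℝ, 0 < ε → ∀ᶠ n : ℕ in atTop,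
          (n : ℝ) ^ (3 - 2 * a - ε) ≤ Real.log (Z n ((n : ℝ) ^ (-a))) ∧
          (n : ℝ) ^ (3 - a - ε) ≤ A n ((n : ℝ) ^ (-a))) := by
  constructor
  · obtain ⟨K1, hK1, h1⟩ := Y981.L2.axis_ldp
    obtain ⟨K2, hK2, h2⟩ := V11252.SAW.infl_energy
    refine ⟨Y981.L2.R, K1 + K2, fun n hn => ⟨?_, ?_⟩⟩
    · intro k hk hkn
      have g1 := (h1 n hn k hk hkn).2
      have p2 : 0 ≤ K2 * Real.log (n : ℝ) ^ 2 := by positivity
      rw [cx_eq, c_eq]
      simp only
      linarith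
    · intro p hp
      have p1 : 0 ≤ K1 * Real.log (n : ℝ) ^ 2 := by positivity
      obtain ⟨g1, v, v0, v1, g2⟩ := h2 n hn p hp
      refine ⟨fun v v0 v1 => ?_, v, v0, v1, ?_⟩
      · have := g1 v v0 v1
        rw [Z_eq]
        linarith
      · rw [Z_eq]
        linarith
  · intro a ha ha2
    have eU : (∀ ε : ℝ, 0 < ε → ∃ δ : ℝ, 0 < δ ∧ ∀ᶠ n : ℕ in atTop,
          large n ((n : ℝ) ^ (3 / 2 + ε)) ≤ Real.exp (-(n : ℝ) ^ δ)) ↔
        Y981.L2.AreaUp (3 / 4) := by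
      unfold Y981.L2.AreaUp
      have e : ∀ ε : ℝ, (3 / 2 + ε : ℝ) = 2 * (3 / 4) + ε := fun ε => by ring
      simp only [e, large_eq]
    have eL : (∀ ε : ℝ, 0 < ε → ∀ δ : ℝ, 0 < δ → ∀ᶠ n : ℕ in atTop,
          Real.exp (-(n : ℝ) ^ δ) ≤ large n ((n : ℝ) ^ (3 / 2 - ε))) ↔
        Y981.L2.AreaLow (3 / 4) := by
      unfold Y981.L2.AreaLow
      have e : ∀ ε : ℝ, (3 / 2 - ε : ℝ) = 2 * (3 / 4) - ε := fun ε => by ring
      simp only [e, large_eq]
    rw [eU, eL]
    simp only [Z_eq, A_eq]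
    refine ⟨V11252.SAW.areaUp_iff ha ha2, V11252.SAW.area_infl_up ha ha2, fun h ε hε => ?_⟩
    exact (V11252.SAW.areaLow_iLow ha ha2 h ε hε).and (V11252.SAW.area_infl_low ha ha2 h ε hε)

end Pool.Agent.Results.MP_2250b1_co.InflatedPolygons
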