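import Pool.Agent.H315.SAW.StripArea

/-!
# The mean area of the self-avoiding polygons of bounded width

The mean area of the self-avoiding polygons of perimeter `2 n` and width at most `k` is at most
`n k ^ (1 - a / log log k)` for all large `k` and infinitely many `n` (all large multiples of some
`M`), while the trivial bounds are `n - 1` and `k n`.  More precisely it is at most
`K k ξ_m (log m)^3 n / m` if `k ≥ K ξ_m (log m)^2`, where `ξ_m` is the correlation length of the
self-avoiding walk at distance `1/m` from the critical point.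
-/

set_option autoImplicit false

namespace Pool.Agent.Results.MP_2250b1_co.MeanAreaBoundedWidth

open Filter Topology

/-- `ω` is an `n`-step self-avoiding walk on `ℤ²` started at the origin. -/
def IsSAW (n : ℕ) (ω : Fin (n + 1) → ℤ × ℤ) : Prop :=
  ω 0 = (0, 0) ∧
  (∀ i : Fin n, |(ω i.succ).1 - (ω i.castSucc).1| + |(ω i.succ).2 - (ω i.castSucc).2| = 1) ∧
  Function.Injective ω

/-- `c_n`: the number of `n`-step self-avoiding walks from the origin -/
noncomputable def c (n : ℕ) : ℕ := Nat.card {ω : Fin (n + 1) → ℤ × ℤ // IsSAW n ω}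

/-- `c_n(x)`: the number of `n`-step self-avoiding walks from the origin to `x` -/
noncomputable def cx (n : ℕ) (x : ℤ × ℤ) : ℕ :=
  Nat.card {ω : Fin (n + 1) → ℤ × ℤ // IsSAW n ω ∧ ω (Fin.last n) = x}

/-- the two-point function `G_z(x) = ∑_n c_n(x) z^n` -/
noncomputable def G (z : ℝ) (x : ℤ × ℤ) : ℝ := ∑' n : ℕ, (cx n x : ℝ) * z ^ n

/-- a self-avoiding polygon of perimeter `m`, rooted at the origin and oriented: a closed
nearest-neighbour loop on `ℤ²` with `m` steps that visits no vertex twice -/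
def IsLoop (m : ℕ) (f : ZMod m → ℤ × ℤ) : Prop :=
  f 0 = 0 ∧ Function.Injective f ∧
    ∀ i : ZMod m, |(f (i + 1)).1 - (f i).1| + |(f (i + 1)).2 - (f i).2| = 1

/-- the edge from `f k` to `f (k+1)` is horizontal, joins the columns `x = a` and `x = a + 1`, and
has height larger than `b`: it lies above the unit cell `[a, a+1] × [b, b+1]` -/
def Above (m : ℕ) (f : ZMod m → ℤ × ℤ) (a b : ℤ) (k : ZMod m) : Prop :=
  (((f k).1 = a ∧ (f (k + 1)).1 = a + 1) ∨ ((f k).1 = a + 1 ∧ (f (k + 1)).1 = a)) ∧ b < (f k).2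

/-- the unit cell `[a, a+1] × [b, b+1]` is enclosed by the loop: the vertical ray from the cell
upwards crosses an odd number of edges -/
def Encl (m : ℕ) (f : ZMod m → ℤ × ℤ) (c : ℤ × ℤ) : Prop :=
  Odd (Nat.card {k : ZMod m // Above m f c.1 c.2 k})

/-- the area: the number of unit cells enclosed by the loop -/
noncomputable def area (m : ℕ) (f : ZMod m → ℤ × ℤ) : ℕ := Nat.card {c : ℤ × ℤ // Encl m f c}

/-- the polygons of perimeter `2 n` and width (horizontal extent) at most `k` -/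
def Narrow (k n : ℕ) : Set (ZMod (2 * n) → ℤ × ℤ) :=
  {f | IsLoop (2 * n) f ∧ ∀ i j, |(f i).1 - (f j).1| ≤ k}

/-- the mean area of the polygons of perimeter `2 n` and width at most `k` -/
noncomputable def A (k n : ℕ) : ℝ :=
  (∑ᶠ f ∈ Narrow k n, (area (2 * n) f : ℝ)) / ((Narrow k n).ncard : ℝ)

theorem c_eq (n : ℕ) : c n = TH795.EP.c n := TH795.EP2.card_walks n

theorem cx_eq (n : ℕ) (x : ℤ × ℤ) : cx n x = TH795.EP.a n x.1 x.2 := TH795.EP2.card_walks_to n x

theorem G_eq (z : ℝ) (k : ℕ) : G z ((k : ℤ), 0) = Y981.L2.Gz z k 0 := by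
  unfold G Y981.L2.Gz
  apply tsum_congr
  intro n
  rw [cx_eq]

theorem nonempty_of {k n : ℕ} (h : 0 < (H315.SAW.Nar k n).ncard) : (Narrow k n).Nonempty := by
  have h1 : (H315.SAW.Nar k n).Nonempty := by
    by_contra hcon
    rw [Set.not_nonempty_iff_eq_empty] at hcon
    rw [hcon, Set.ncard_empty] at h
    omega
  exact h1

theorem A_le {k n : ℕ} {x : ℝ} (h : 0 < (H315.SAW.Nar k n).ncard)
    (hx : (∑ᶠ f ∈ H315.SAW.Nar k n, (Y981.L2.area (2 * n) f : ℝ)) ≤
      x * (H315.SAW.Nar k n).ncard) : A k n ≤ x := by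
  have h0 : (0 : ℝ) < (H315.SAW.Nar k n).ncard := by exact_mod_cast h
  unfold A
  change (∑ᶠ f ∈ H315.SAW.Nar k n, (Y981.L2.area (2 * n) f : ℝ)) /
    ((H315.SAW.Nar k n).ncard : ℝ) ≤ x
  rw [div_le_iff₀ h0]
  exact hx

/-- **Theorem.** Let `μ = lim c_n^(1/n)`; for `0 < z < 1/μ` the correlation length
`ξ(z) = (lim_k - (1/k) log G_z((k, 0)))^(-1)` of the self-avoiding walk exists and is positive and
finite.
(1) There is `K` such that for all `m ≥ 2`, with `ξ_m = ξ(e^(-1/m) / μ)`, there is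
`2 m ≤ M ≤ 300 m^2` such that for all `k ≥ K ξ_m (log m)^2` and all `n = M N` with `N ≥ 2` the mean
area of the polygons of perimeter `2 n` and width at most `k` is at most
`K k ξ_m (log m)^3 n / m`.
(2) There is `a > 0` such that for all large `k` there is `M ≥ 1` such that for all multiples
`n ≥ 2 M` of `M` the mean area of the polygons of perimeter `2 n` and width at most `k` is at most
`n k ^ (1 - a / log log k)`. -/
theorem result : ∃ (μ : ℝ) (ξ : ℝ → ℝ), 0 < μ ∧
    Tendsto (fun n : ℕ => (c n : ℝ) ^ (1 / (n : ℝ))) atTop (𝓝 μ) ∧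
    (∀ z : ℝ, 0 < z → z < 1 / μ → 0 < ξ z ∧
      Tendsto (fun k : ℕ => - Real.log (G z ((k : ℤ), 0)) / k) atTop (𝓝 (1 / ξ z))) ∧
    (∃ K : ℝ, 0 < K ∧ ∀ m : ℕ, 2 ≤ m → ∀ x : ℝ, x = ξ (Real.exp (-1 / m) / μ) →
      ∃ M : ℕ, 2 * m ≤ M ∧ M ≤ 300 * m ^ 2 ∧ ∀ k : ℕ, K * x * Real.log m ^ 2 ≤ k →
        ∀ N n : ℕ, 2 ≤ N → n = M * N →
          (Narrow k n).Nonempty ∧ A k n ≤ K * k * x * Real.log m ^ 3 * (n / m)) ∧
    ∃ a : ℝ, 0 < a ∧ ∀ᶠ k : ℕ in atTop, ∃ M : ℕ, 1 ≤ M ∧ ∀ n : ℕ, M ∣ n → 2 * M ≤ n →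
      (Narrow k n).Nonempty ∧ A k n ≤ n * (k : ℝ) ^ (1 - a / Real.log (Real.log k)) := by
  have hmu := H981.mu_pos
  obtain ⟨K, hK, h1⟩ := H315.SAW.mean_narrow
  refine ⟨H981.mu, Y981.L2.xi, hmu, ?_, ?_, ⟨K, hK, fun m hm x hx => ?_⟩, ?_⟩
  · have h := H981.tendsto_root
    refine h.congr ?_
    intro n
    rw [c_eq, TH795.EP.c_eq]
  · intro z hz hz1
    have he : 0 < -Real.log (z * H981.mu) := by
      have h1 : z * H981.mu < 1 := by rwa [lt_div_iff₀ hmu] at hz1
      have h2 := Real.log_neg (mul_pos hz hmu) h1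
      linarith
    have hm := Y981.L2.mass_pos he
    constructor
    · unfold Y981.L2.xi
      positivity
    · have h := Y981.L2.G_tendsto hz hz1
      unfold Y981.L2.xi
      rw [one_div_one_div]
      refine h.congr ?_
      intro k
      rw [G_eq]
  · have hxi : x = 1 / H315.SAW.ms m := by
      rw [hx]
      have e := Y981.L2.e_z (1 / (m : ℝ))
      have e2 : -(1 / (m : ℝ)) = -1 / m := by ring
      rw [e2] at e
      unfold Y981.L2.xi H315.SAW.ms
      rw [e]
    obtain ⟨M, hM1, hM2, h2⟩ := h1 m hm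
    refine ⟨M, hM1, hM2, fun k hk N n hN hn => ?_⟩
    have e1 : K * x * Real.log m ^ 2 = K * (Real.log m ^ 2 / H315.SAW.ms m) := by rw [hxi]; ring
    rw [e1] at hk
    obtain ⟨h3, h4⟩ := h2 k hk N n hN hn
    refine ⟨nonempty_of h3, A_le h3 ?_⟩
    have e2 : K * k * x * Real.log m ^ 3 * (n / m) =
        K * k * (n / m) * (Real.log m ^ 3 / H315.SAW.ms m) := by rw [hxi]; ring
    rw [e2]
    exact h4
  · obtain ⟨K', hK'⟩ : ∃ K', K' = K + 1 / Real.log 2 ^ 2 := ⟨_, rfl⟩
    have hl2 : 0 < Real.log 2 := Real.log_pos (by norm_num)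
    have hK'0 : 0 < K' := by rw [hK']; positivity
    obtain ⟨a, ha, hch⟩ := H315.SAW.choice hK'0
    refine ⟨a, ha, ?_⟩
    filter_upwards [hch, eventually_ge_atTop 2] with k ⟨m, hm, hm1, hm2⟩ hk2
    obtain ⟨M, hM1, hM2, h2⟩ := h1 m hm
    refine ⟨M, by omega, ?_⟩
    rintro n ⟨N, rfl⟩ hN'
    have hM : 1 ≤ M := by omega
    have hN : 2 ≤ N := by
      by_contra hcon
      have : M * N ≤ M * 1 := Nat.mul_le_mul_left M (by omega)
      omega
    have hms := H315.SAW.ms_pos hm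
    have hlm : Real.log 2 ≤ Real.log (m : ℝ) :=
      Real.log_le_log (by norm_num) (by exact_mod_cast hm)
    have hlm0 : 0 < Real.log (m : ℝ) := by linarith
    have hm0 : (0 : ℝ) < m := by exact_mod_cast (by omega : 0 < m)
    have hk0 : (0 : ℝ) < k := by exact_mod_cast (by omega : 0 < k)
    have hq : 0 < Real.log (m : ℝ) ^ 2 / H315.SAW.ms m := by positivity
    have hKk : K * (Real.log m ^ 2 / H315.SAW.ms m) ≤ k := by
      refine le_trans ?_ hm1
      rw [mul_div_assoc]
      apply mul_le_mul_of_nonneg_right _ hq.le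
      rw [hK']
      have : 0 ≤ 1 / Real.log 2 ^ 2 := by positivity
      linarith
    obtain ⟨h3, h4⟩ := h2 k hKk N (M * N) hN rfl
    refine ⟨nonempty_of h3, A_le h3 (h4.trans ?_)⟩
    apply mul_le_mul_of_nonneg_right _ (Nat.cast_nonneg _)
    have h5 : Real.log (m : ℝ) / m ≤ (k : ℝ) ^ (-(1 + a / Real.log (Real.log k))) := by
      refine le_trans ?_ hm2
      apply div_le_div_of_nonneg_right _ hm0.le
      have a1 : 1 ≤ 1 / Real.log 2 ^ 2 * Real.log m ^ 2 := by
        rw [one_div, ← div_eq_inv_mul, le_div_iff₀ (by positivity), one_mul]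
        exact pow_le_pow_left₀ hl2.le hlm 2
      calc Real.log (m : ℝ) = 1 * Real.log m := (one_mul _).symm
        _ ≤ (1 / Real.log 2 ^ 2 * Real.log m ^ 2) * Real.log m := by gcongr
        _ = 1 / Real.log 2 ^ 2 * Real.log m ^ 3 := by ring
        _ ≤ K' * Real.log m ^ 3 := by
            apply mul_le_mul_of_nonneg_right _ (by positivity)
            rw [hK']
            linarith
    have hsplit : (k : ℝ) ^ (1 - a / Real.log (Real.log k)) =
        k * k * (k : ℝ) ^ (-(1 + a / Real.log (Real.log k))) := by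
      have e : (1 - a / Real.log (Real.log k)) =
        1 + 1 + -(1 + a / Real.log (Real.log (k : ℝ))) := by ring
      rw [e, Real.rpow_add hk0, Real.rpow_add hk0, Real.rpow_one]
    rw [hsplit]
    have hn0 : (0 : ℝ) ≤ ((M * N : ℕ) : ℝ) := Nat.cast_nonneg _
    calc K * k * (((M * N : ℕ) : ℝ) / m) * (Real.log m ^ 3 / H315.SAW.ms m)
        = ((M * N : ℕ) : ℝ) * (k * (K * (Real.log m ^ 2 / H315.SAW.ms m)) * (Real.log m / m)) := by
          field_simp
      _ ≤ ((M * N : ℕ) : ℝ) * (k * k * (k : ℝ) ^ (-(1 + a / Real.log (Real.log k)))) := by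
          gcongr

end Pool.Agent.Results.MP_2250b1_co.MeanAreaBoundedWidth
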